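import Pool.Agent.Helper17.SL.GoalsZE

/-!
# Project SL (MP_fc6b1e_nt), packet ZH: choice of the coordinates.
-/

namespace Pool.Agent.Helper17.SL.PkZH

open Module Pool.Agent.Helper17.SL

universe u x y

/-- A spanning finite family contains a basis, as a finite set of indices. -/
theorem choose_basis {K : Type*} {V : Type*} {ι : Type*} [Field K] [AddCommGroup V] [Module K V]
    [Fintype ι] (v : ι → V) (hv : Submodule.span K (Set.range v) = ⊤) :
    ∃ s : Finset ι, s.card = finrank K V ∧
      ∀ c : ι → K, (∀ i, i ∉ s → c i = 0) → ∑ i, c i • v i = 0 → c = 0 := by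
  classical
  obtain ⟨κ, a, ha, hsp, hli⟩ := exists_linearIndependent' K v
  letI : Fintype κ := Fintype.ofInjective a ha
  refine ⟨Finset.univ.map ⟨a, ha⟩, ?_, ?_⟩
  · rw [Finset.card_map, Finset.card_univ, ← finrank_span_eq_card hli, hsp, hv, finrank_top]
  · intro c hc hsum
    have h1 : ∑ i, c i • v i = ∑ k, c (a k) • v (a k) := by
      have h2 : ∑ i ∈ Finset.univ.map ⟨a, ha⟩, c i • v i = ∑ i, c i • v i := by
        refine Finset.sum_subset (Finset.subset_univ _) fun i _ hi => ?_
        rw [hc i hi, zero_smul]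
      rw [← h2, Finset.sum_map]
      rfl
    rw [h1] at hsum
    have h3 := Fintype.linearIndependent_iff.1 hli (fun k => c (a k)) hsum
    funext i
    by_cases hi : i ∈ Finset.univ.map ⟨a, ha⟩
    · obtain ⟨k, -, hk⟩ := Finset.mem_map.1 hi
      have hk' : a k = i := hk
      rw [← hk']
      exact h3 k
    · exact hc i hi

/-- Coordinates on a subspace of `K ^ I`. -/
theorem choose_coord {K : Type*} {I : Type*} [Field K] [Fintype I] (W : Submodule K (I → K)) :
    ∃ s : Finset I, s.card = finrank K W ∧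
      ∀ c : I → K, (∀ i, i ∉ s → c i = 0) → (∀ z ∈ W, ∑ i, c i * z i = 0) → c = 0 := by
  classical
  let v : I → Dual K W := fun i => (LinearMap.proj i).comp W.subtype
  have hv : Submodule.span K (Set.range v) = ⊤ := by
    rw [eq_top_iff]
    intro f _
    obtain ⟨g, hg⟩ := f.exists_extend
    have h1 : f = ∑ i, g (Pi.single i 1) • v i := by
      ext w
      rw [← hg, LinearMap.comp_apply]
      have h2 : W.subtype w = ∑ i, (w : I → K) i • (Pi.single i (1 : K) : I → K) := by
        funext j
        rw [Finset.sum_apply, Finset.sum_eq_single j]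
        · simp
        · intro b _ hb
          simp [Pi.single_apply, hb.symm]
        · intro h
          exact absurd (Finset.mem_univ j) h
      rw [h2, map_sum, LinearMap.sum_apply]
      refine Finset.sum_congr rfl fun i _ => ?_
      rw [map_smul, LinearMap.smul_apply, smul_eq_mul, smul_eq_mul, mul_comm]
      rfl
    rw [h1]
    exact Submodule.sum_mem _ fun i _ => Submodule.smul_mem _ _ (Submodule.subset_span ⟨i, rfl⟩)
  obtain ⟨s, hs, hc⟩ := choose_basis v hv
  refine ⟨s, hs.trans Subspace.dual_finrank_eq, fun c h1 h2 => hc c h1 ?_⟩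
  ext w
  rw [LinearMap.sum_apply, LinearMap.zero_apply]
  exact h2 w w.2

/-- Coordinates transversal to a subgroup of `ℤ ^ J`. -/
theorem choose_rel {J : Type*} [Fintype J] (N : Submodule ℤ (J → ℤ)) :
    ∃ s : Finset J, s.card + finrank ℤ N = Fintype.card J ∧
      ∀ c : J → ℤ, (∀ j, j ∉ s → c j = 0) → c ∈ N → c = 0 := by
  classical
  let cst : (J → ℤ) →ₗ[ℤ] (J → ℚ) :=
    { toFun := fun c j => (c j : ℚ)
      map_add' := fun c d => by funext j; simp
      map_smul' := fun z c => by funext j; simp }
  have hcst : Function.Injective cst := by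
    intro c d h
    funext j
    have h1 := congrFun h j
    have h2 : (c j : ℚ) = (d j : ℚ) := h1
    exact_mod_cast h2
  let b := Module.finBasis ℤ N
  let w : Fin (finrank ℤ N) → (J → ℚ) := fun k => cst (b k : J → ℤ)
  have hw : LinearIndependent ℚ w := by
    rw [← LinearIndependent.iff_fractionRing ℤ ℚ]
    have h1 : LinearIndependent ℤ (fun k => (cst.comp N.subtype) (b k)) :=
      b.linearIndependent.map' (cst.comp N.subtype)
        (LinearMap.ker_eq_bot.2 (hcst.comp N.injective_subtype))
    exact h1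
  let NQ : Submodule ℚ (J → ℚ) := Submodule.span ℚ (Set.range w)
  have hNQ : finrank ℚ NQ = finrank ℤ N := by
    rw [finrank_span_eq_card hw, Fintype.card_fin]
  have hmem : ∀ c ∈ N, cst c ∈ NQ := by
    intro c hc
    have h1 := b.sum_repr (⟨c, hc⟩ : N)
    have h2 : c = ∑ k, b.repr ⟨c, hc⟩ k • (b k : J → ℤ) := by
      have h3 := congrArg N.subtype h1
      rw [map_sum] at h3
      exact h3.symm
    rw [h2, map_sum]
    refine Submodule.sum_mem _ fun k _ => ?_
    rw [map_smul, ← Int.cast_smul_eq_zsmul ℚ]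
    exact Submodule.smul_mem _ _ (Submodule.subset_span ⟨k, rfl⟩)
  let v : J → (J → ℚ) ⧸ NQ := fun j => NQ.mkQ (Pi.single j 1)
  have hsum : ∀ c : J → ℚ, NQ.mkQ c = ∑ j, c j • v j := by
    intro c
    have h2 : c = ∑ j, c j • (Pi.single j (1 : ℚ) : J → ℚ) := by
      funext i
      rw [Finset.sum_apply, Finset.sum_eq_single i]
      · simp
      · intro b _ hb
        simp [Pi.single_apply, hb.symm]
      · intro h
        exact absurd (Finset.mem_univ i) h
    conv_lhs => rw [h2]
    rw [map_sum]
    refine Finset.sum_congr rfl fun j _ => ?_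
    rw [map_smul]
  have hv : Submodule.span ℚ (Set.range v) = ⊤ := by
    rw [eq_top_iff]
    intro q _
    obtain ⟨c, rfl⟩ := NQ.mkQ_surjective q
    rw [hsum c]
    exact Submodule.sum_mem _ fun i _ => Submodule.smul_mem _ _ (Submodule.subset_span ⟨i, rfl⟩)
  obtain ⟨s, hs, hc⟩ := choose_basis v hv
  refine ⟨s, ?_, ?_⟩
  · have h1 := Submodule.finrank_quotient_add_finrank NQ
    rw [hNQ, ← hs, finrank_fintype_fun_eq_card] at h1
    exact h1
  · intro c h1 h2
    have h3 : cst c = 0 := by
      refine hc (cst c) (fun j hj => ?_) ?_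
      · change ((c j : ℤ) : ℚ) = 0
        rw [h1 j hj, Int.cast_zero]
      · rw [← hsum, Submodule.mkQ_apply, Submodule.Quotient.mk_eq_zero]
        exact hmem c h2
    apply hcst
    rw [h3, map_zero]

theorem thm : S_ZH.{u, x, y} := by
  intro K _ _ I J _ _ g D G
  obtain ⟨s1, hs1, hc1⟩ := choose_coord (D.spanX G)
  obtain ⟨s2, hs2, hc2⟩ := choose_rel (D.rel G)
  refine ⟨s1.disjSum s2, ?_, ?_, ?_, ?_⟩
  · rw [Finset.toLeft_disjSum]
    exact hs1
  · rw [Finset.toRight_disjSum]
    exact hs2
  · intro c h1 h2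
    refine hc1 c (fun i hi => h1 i fun h => hi (Finset.inl_mem_disjSum.1 h)) ?_
    intro z hz
    refine Submodule.span_induction (p := fun z _ => ∑ i, c i * z i = 0) ?_ ?_ ?_ ?_ hz
    · rintro z ⟨a, ha, rfl⟩
      exact h2 a ha
    · simp
    · intro z z' _ _ h h'
      simp only [Pi.add_apply, mul_add, Finset.sum_add_distrib, h, h', add_zero]
    · intro r z _ h
      have h3 : ∀ i, c i * (r • z) i = r * (c i * z i) := fun i => by
        rw [Pi.smul_apply, smul_eq_mul]
        ring
      simp only [h3, ← Finset.mul_sum, h, mul_zero]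
  · intro c h1 h2
    exact hc2 c (fun j hj => h1 j fun h => hj (Finset.inr_mem_disjSum.1 h)) h2

end Pool.Agent.Helper17.SL.PkZH
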